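import Pool.Agent.Helper17.QD.Glue

/-!
# Project QD, glue, module NMP: counting functions and a change of marking
-/

set_option autoImplicit false

open Filter Topology Matrix Set Metric MeasureTheory
open scoped ComplexConjugate ComplexOrder ENNReal

namespace Pool.Agent.Helper75.QL

open Pool.Agent.Helper17.QD Pool.Agent.Helper35.PM
open Pool.Agent.Helper68.QC (nq Bel InvB Intw)
open Pool.Agent.Helper20.QD (Fuch cj IsSU D DD SS dz dzb mob den)

private theorem tl_conj (A B : SL) : tl (B * A * B⁻¹) = tl A := by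
  have h : ((B * A * B⁻¹ : SL) : Mat).trace = (A : Mat).trace := by
    rw [Matrix.SpecialLinearGroup.coe_mul, Matrix.trace_mul_comm,
      ← Matrix.SpecialLinearGroup.coe_mul, ← mul_assoc, inv_mul_cancel, one_mul]
  unfold tl
  rw [h]

variable {Γ : Type} [Group Γ]

private theorem tl_isConj (ρ : Γ →* SL) {a b : Γ} (h : IsConj a b) : tl (ρ a) = tl (ρ b) := by
  obtain ⟨c, hc⟩ := isConj_iff.1 h
  rw [← hc, map_mul, map_mul, map_inv, tl_conj]

private theorem len_mk (ρ : Γ →* SL) (a : Γ) : len ρ (ConjClasses.mk a) = tl (ρ a) := by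
  unfold len
  refine tl_isConj ρ ?_
  refine ConjClasses.mk_eq_mk_iff_isConj.1 ?_
  exact Quotient.out_eq (ConjClasses.mk a)

private noncomputable def eqv (φ : Γ ≃* Γ) : ConjClasses Γ ≃ ConjClasses Γ where
  toFun := ConjClasses.map φ.toMonoidHom
  invFun := ConjClasses.map φ.symm.toMonoidHom
  left_inv := by
    rintro ⟨a⟩
    exact congrArg ConjClasses.mk (φ.symm_apply_apply a)
  right_inv := by
    rintro ⟨a⟩
    exact congrArg ConjClasses.mk (φ.apply_symm_apply a)

private theorem len_pre (φ : Γ ≃* Γ) (ρ : Γ →* SL) (c : ConjClasses Γ) :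
    len (pre φ ρ) c = len ρ (eqv φ c) := by
  obtain ⟨a, rfl⟩ := ConjClasses.mk_surjective c
  have h : eqv φ (ConjClasses.mk a) = ConjClasses.mk (φ a) := rfl
  rw [h, len_mk, len_mk]
  rfl

private theorem classes_pre (φ : Γ ≃* Γ) (ρ : Γ →* SL) (T : ℝ) :
    classes (pre φ ρ) T = eqv φ ⁻¹' classes ρ T := by
  ext c
  change len (pre φ ρ) c ≤ T ↔ len ρ (eqv φ c) ≤ T
  rw [len_pre]

private theorem num_pre (φ : Γ ≃* Γ) (ρ : Γ →* SL) (T : ℝ) :
    num (pre φ ρ) T = num ρ T := by
  unfold num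
  rw [classes_pre, ← Equiv.image_symm_eq_preimage]
  exact Set.ncard_image_of_injective _ (eqv φ).symm.injective

/-- **NMP** -/
theorem hNMP : StNMP := by
  intro Γ _ φ
  refine ⟨fun ρ T => num_pre φ ρ T, fun ρ σ T => ?_⟩
  unfold avg
  rw [num_pre]
  congr 1
  have h1 : ∀ c, (∑ᶠ (_ : c ∈ classes (pre φ ρ) T), len (pre φ σ) c / len (pre φ ρ) c) =
      ∑ᶠ (_ : eqv φ c ∈ classes ρ T), len σ (eqv φ c) / len ρ (eqv φ c) := by
    intro c
    rw [classes_pre, len_pre, len_pre]
    rfl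
  rw [finsum_congr h1]
  exact finsum_comp_equiv (eqv φ)
    (f := fun c => ∑ᶠ (_ : c ∈ classes ρ T), len σ c / len ρ c)

end Pool.Agent.Helper75.QL
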